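import Mathlib

set_option autoImplicit false

namespace Pool.Agent.Results.MP_94e41a_co.AcyclicSets

open Finset

/-- `A` is the arc relation of an oriented graph: no loops and no pair of opposite arcs. -/
def Oriented {V : Type*} (A : V → V → Prop) : Prop := ∀ u v, A u v → ¬ A v u

/-- The sub-digraph induced by the vertex set `X` has no directed cycle. -/
def AcyclicOn {V : Type*} (A : V → V → Prop) (X : Finset V) : Prop :=
  ∀ v, ¬ Relation.TransGen (fun a b => a ∈ X ∧ b ∈ X ∧ A a b) v v

open Classical in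
/-- The degree of `v`: out-degree plus in-degree. -/
noncomputable def deg {V : Type*} [Fintype V] (A : V → V → Prop) (v : V) : ℕ :=
  (univ.filter (fun u => A v u)).card + (univ.filter (fun u => A u v)).card

open Classical in
/-- The least size of a vertex set whose removal leaves an acyclic digraph. -/
noncomputable def fvs {V : Type*} [Fintype V] (A : V → V → Prop) : ℕ :=
  sInf {c : ℕ | ∃ X : Finset V, X.card = c ∧ AcyclicOn A Xᶜ}

/-- The supremum of `fvs(D) / |V(D)|` over the (nonempty) oriented graphs `D` of maximum degree at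
most `k`. -/
noncomputable def f (k : ℕ) : ℝ :=
  sSup {x : ℝ | ∃ (n : ℕ) (A : Fin n → Fin n → Prop), 0 < n ∧ Oriented A ∧
    (∀ v, deg A v ≤ k) ∧ x = (fvs A : ℝ) / n}

section
variable {V : Type*} {A : V → V → Prop}

theorem union_acyclic [DecidableEq V] {X Y : Finset V} (hX : AcyclicOn A X) (hY : AcyclicOn A Y)
    (h : ∀ x ∈ X, ∀ y ∈ Y, ¬ A x y) : AcyclicOn A (X ∪ Y) := by
  have h0 : ∀ a b, a ∈ X ∪ Y ∧ b ∈ X ∪ Y ∧ A a b → b ∈ Y → a ∈ Y := by
    rintro a b ⟨ha, -, hab⟩ hb
    rcases mem_union.1 ha with h1 | h1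
    · exact absurd hab (h a h1 b hb)
    · exact h1
  have h1 : ∀ a b, Relation.TransGen (fun a b => a ∈ X ∪ Y ∧ b ∈ X ∪ Y ∧ A a b) a b → b ∈ Y →
      a ∈ Y ∧ Relation.TransGen (fun a b => a ∈ Y ∧ b ∈ Y ∧ A a b) a b := by
    intro a b hab
    induction hab with
    | single hb =>
      intro hbY
      have := h0 _ _ hb hbY
      exact ⟨this, Relation.TransGen.single ⟨this, hbY, hb.2.2⟩⟩
    | tail _ hbc ih =>
      intro hcY
      have hb := h0 _ _ hbc hcY
      exact ⟨(ih hb).1, (ih hb).2.tail ⟨hb, hcY, hbc.2.2⟩⟩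
  have h2 : ∀ a b, Relation.TransGen (fun a b => a ∈ X ∪ Y ∧ b ∈ X ∪ Y ∧ A a b) a b → a ∉ Y →
      Relation.TransGen (fun a b => a ∈ X ∧ b ∈ X ∧ A a b) a b := by
    intro a b hab
    induction hab with
    | single hb =>
      rename_i c
      intro haY
      have hcY : c ∉ Y := fun hc => haY (h0 _ _ hb hc)
      have ha : a ∈ X := (mem_union.1 hb.1).resolve_right haY
      have hc : c ∈ X := (mem_union.1 hb.2.1).resolve_right hcY
      exact Relation.TransGen.single ⟨ha, hc, hb.2.2⟩
    | tail hab hbc ih =>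
      rename_i b c
      intro haY
      have hbY : b ∉ Y := fun hb => haY (h1 _ _ hab hb).1
      have hcY : c ∉ Y := fun hc => hbY (h0 _ _ hbc hc)
      have hb : b ∈ X := (mem_union.1 hbc.1).resolve_right hbY
      have hc : c ∈ X := (mem_union.1 hbc.2.1).resolve_right hcY
      exact (ih haY).tail ⟨hb, hc, hbc.2.2⟩
  intro v hv
  by_cases hvY : v ∈ Y
  · exact hY v (h1 v v hv hvY).2
  · exact hX v (h2 v v hv hvY)

theorem empty_acyclic : AcyclicOn A (∅ : Finset V) := by
  intro v hv
  have : ∀ a b, Relation.TransGen (fun a b => a ∈ (∅ : Finset V) ∧ b ∈ (∅ : Finset V) ∧ A a b) a b →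
      False := by
    intro a b hab
    induction hab with
    | single hb => simpa using hb.1
    | tail _ _ ih => exact ih
  exact this v v hv

theorem single_acyclic (hA : Oriented A) (x : V) : AcyclicOn A ({x} : Finset V) := by
  intro v hv
  have : ∀ a b, Relation.TransGen (fun a b => a ∈ ({x} : Finset V) ∧ b ∈ ({x} : Finset V) ∧ A a b) a b →
      False := by
    intro a b hab
    induction hab with
    | single hb =>
      obtain ⟨h1, h2, h3⟩ := hb
      rw [mem_singleton] at h1 h2
      subst h1; subst h2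
      exact hA _ _ h3 h3
    | tail _ _ ih => exact ih
  exact this v v hv

open Classical in
/-- Every oriented graph on at least `2 ^ j` vertices has an acyclic set of size `j + 1`. -/
theorem ramsey (hA : Oriented A) : ∀ (j : ℕ) (X : Finset V), 2 ^ j ≤ X.card →
    ∃ Y ⊆ X, Y.card = j + 1 ∧ AcyclicOn A Y := by
  intro j
  induction j with
  | zero =>
    intro X hX
    obtain ⟨x, hx⟩ : X.Nonempty := by
      rw [← card_pos]; simpa using hX
    exact ⟨{x}, by simpa using hx, by simp, single_acyclic hA x⟩
  | succ j ih =>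
    intro X hX
    obtain ⟨x, hx⟩ : X.Nonempty := by
      rw [← card_pos]; exact lt_of_lt_of_le (by positivity) hX
    have h1 : ((X.erase x).filter (fun y => A x y)).card +
        ((X.erase x).filter (fun y => ¬ A x y)).card = (X.erase x).card :=
      Finset.card_filter_add_card_filter_not _
    have h2 : (X.erase x).card = X.card - 1 := card_erase_of_mem hx
    have h3 : 2 ^ (j + 1) = 2 ^ j + 2 ^ j := by ring
    by_cases hc : 2 ^ j ≤ ((X.erase x).filter (fun y => ¬ A x y)).card
    · obtain ⟨Y, hYs, hYc, hYa⟩ := ih _ hc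
      have hxY : x ∉ Y := fun h => by
        have := hYs h
        simp at this
      refine ⟨{x} ∪ Y, ?_, ?_, ?_⟩
      · intro z hz
        rcases mem_union.1 hz with h | h
        · rw [mem_singleton] at h; rw [h]; exact hx
        · exact mem_of_mem_erase (mem_filter.1 (hYs h)).1
      · rw [card_union_of_disjoint (by simpa using hxY)]; simp [hYc]; ring
      · refine union_acyclic (single_acyclic hA x) hYa ?_
        intro a ha y hy
        rw [mem_singleton] at ha
        rw [ha]
        exact (mem_filter.1 (hYs hy)).2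
    · have hc' : 2 ^ j ≤ ((X.erase x).filter (fun y => A x y)).card := by omega
      obtain ⟨Y, hYs, hYc, hYa⟩ := ih _ hc'
      have hxY : x ∉ Y := fun h => by
        have := hYs h
        simp at this
      refine ⟨Y ∪ {x}, ?_, ?_, ?_⟩
      · intro z hz
        rcases mem_union.1 hz with h | h
        · exact mem_of_mem_erase (mem_filter.1 (hYs h)).1
        · rw [mem_singleton] at h; rw [h]; exact hx
      · rw [card_union_of_disjoint (by simpa using hxY)]; simp [hYc]
      · refine union_acyclic hYa (single_acyclic hA x) ?_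
        intro y hy a ha
        rw [mem_singleton] at ha
        rw [ha]
        exact hA _ _ (mem_filter.1 (hYs hy)).2

end

section
variable {V : Type*} [Fintype V] {A : V → V → Prop}

open Classical in
/-- low count, abstract form. -/
theorem low_count (hA : Oriented A) {S : Finset V} (R : V → V → Prop)
    (hex : ∀ W ⊆ S, ∀ Y : Finset V, AcyclicOn A Y → (∀ y ∈ Y, y ∉ S ∧ ∀ s ∈ S, R s y → s ∈ W) →
      Y.card ≤ W.card) (j : ℕ) (hj : j ≤ S.card) :
    ((univ \ S).filter (fun v => (S.filter (fun s => R s v)).card ≤ j)).card ≤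
      S.card.choose j * (2 ^ j - 1) := by
  have hsub : (univ \ S).filter (fun v => (S.filter (fun s => R s v)).card ≤ j) ⊆
      (powersetCard j S).biUnion (fun W => (univ \ S).filter (fun v => ∀ s ∈ S, R s v → s ∈ W)) := by
    intro v hv
    rw [mem_filter] at hv
    obtain ⟨W, hW1, hW2, hW3⟩ := Finset.exists_subsuperset_card_eq
      (filter_subset (fun s => R s v) S) hv.2 hj
    rw [mem_biUnion]
    refine ⟨W, mem_powersetCard.2 ⟨hW2, hW3⟩, mem_filter.2 ⟨hv.1, ?_⟩⟩
    intro s hs hr
    exact hW1 (mem_filter.2 ⟨hs, hr⟩)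
  refine (card_le_card hsub).trans ?_
  have h2 : ∀ W ∈ powersetCard j S,
      ((univ \ S).filter (fun v => ∀ s ∈ S, R s v → s ∈ W)).card ≤ 2 ^ j - 1 := by
    intro W hW
    rw [mem_powersetCard] at hW
    by_contra hcon
    have hpos : 0 < 2 ^ j := by positivity
    obtain ⟨Y, hYs, hYc, hYa⟩ := ramsey hA j
      ((univ \ S).filter (fun v => ∀ s ∈ S, R s v → s ∈ W)) (by omega)
    have := hex W hW.1 Y hYa (fun y hy => by
      have := mem_filter.1 (hYs hy)
      exact ⟨(mem_sdiff.1 this.1).2, this.2⟩)
    omega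
  refine (card_biUnion_le_card_mul _ _ _ h2).trans ?_
  rw [card_powersetCard]

open Classical in
theorem sum_lower {S : Finset V} (R : V → V → Prop) (j : ℕ)
    (hpos : ∀ v, v ∉ S → 1 ≤ (S.filter (fun s => R s v)).card) :
    (j + 1) * (univ \ S).card ≤ ∑ v ∈ univ \ S, (S.filter (fun s => R s v)).card +
      j * ((univ \ S).filter (fun v => (S.filter (fun s => R s v)).card ≤ j)).card := by
  rw [card_filter, mul_sum, ← sum_add_distrib, mul_comm, ← smul_eq_mul, ← sum_const]
  refine sum_le_sum ?_
  intro v hv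
  have h1 := hpos v (mem_sdiff.1 hv).2
  split_ifs with h
  · omega
  · omega

open Classical in
/-- The exchange property of a largest acyclic set, for in-neighbours. -/
theorem exch_in {S : Finset V} (hS : AcyclicOn A S)
    (hmax : ∀ T : Finset V, AcyclicOn A T → T.card ≤ S.card) :
    ∀ W ⊆ S, ∀ Y : Finset V, AcyclicOn A Y →
      (∀ y ∈ Y, y ∉ S ∧ ∀ s ∈ S, A s y → s ∈ W) → Y.card ≤ W.card := by
  intro W hW Y hY hYp
  have hsub : AcyclicOn A (S \ W) := by
    intro v hv
    have hle : (fun a b => a ∈ S \ W ∧ b ∈ S \ W ∧ A a b) ≤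
        (fun a b => a ∈ S ∧ b ∈ S ∧ A a b) := by
      rintro a b ⟨h1, h2, h3⟩
      exact ⟨(mem_sdiff.1 h1).1, (mem_sdiff.1 h2).1, h3⟩
    exact hS v (Relation.TransGen.mono hle _ _ hv)
  have h1 : AcyclicOn A ((S \ W) ∪ Y) := by
    refine union_acyclic hsub hY ?_
    intro x hx y hy hxy
    exact (mem_sdiff.1 hx).2 ((hYp y hy).2 x (mem_sdiff.1 hx).1 hxy)
  have h2 := hmax _ h1
  rw [card_union_of_disjoint (by
    rw [disjoint_left]; intro a ha hb
    exact (hYp a hb).1 (mem_sdiff.1 ha).1), card_sdiff_of_subset hW] at h2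
  have := card_le_card hW
  omega

open Classical in
/-- The exchange property of a largest acyclic set, for out-neighbours. -/
theorem exch_out {S : Finset V} (hS : AcyclicOn A S)
    (hmax : ∀ T : Finset V, AcyclicOn A T → T.card ≤ S.card) :
    ∀ W ⊆ S, ∀ Y : Finset V, AcyclicOn A Y →
      (∀ y ∈ Y, y ∉ S ∧ ∀ s ∈ S, A y s → s ∈ W) → Y.card ≤ W.card := by
  intro W hW Y hY hYp
  have hsub : AcyclicOn A (S \ W) := by
    intro v hv
    have hle : (fun a b => a ∈ S \ W ∧ b ∈ S \ W ∧ A a b) ≤
        (fun a b => a ∈ S ∧ b ∈ S ∧ A a b) := by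
      rintro a b ⟨h1, h2, h3⟩
      exact ⟨(mem_sdiff.1 h1).1, (mem_sdiff.1 h2).1, h3⟩
    exact hS v (Relation.TransGen.mono hle _ _ hv)
  have h1 : AcyclicOn A (Y ∪ (S \ W)) := by
    refine union_acyclic hY hsub ?_
    intro y hy x hx hxy
    exact (mem_sdiff.1 hx).2 ((hYp y hy).2 x (mem_sdiff.1 hx).1 hxy)
  have h2 := hmax _ h1
  rw [card_union_of_disjoint (by
    rw [disjoint_left]; intro a ha hb
    exact (hYp a ha).1 (mem_sdiff.1 hb).1), card_sdiff_of_subset hW] at h2
  have := card_le_card hW
  omega

open Classical in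
theorem pair_acyclic (hA : Oriented A) (x y : V) : AcyclicOn A ({x, y} : Finset V) := by
  by_cases h : A x y
  · have : ({x, y} : Finset V) = {y} ∪ {x} := by
      ext z; simp [or_comm]
    rw [this]
    refine union_acyclic (single_acyclic hA y) (single_acyclic hA x) ?_
    intro a ha b hb
    rw [mem_singleton] at ha hb
    rw [ha, hb]
    exact hA x y h
  · have : ({x, y} : Finset V) = {x} ∪ {y} := by
      ext z; simp
    rw [this]
    refine union_acyclic (single_acyclic hA x) (single_acyclic hA y) ?_
    intro a ha b hb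
    rw [mem_singleton] at ha hb
    rw [ha, hb]
    exact h

open Classical in
theorem pos_in (hA : Oriented A) {S : Finset V} (hS : AcyclicOn A S)
    (hmax : ∀ T : Finset V, AcyclicOn A T → T.card ≤ S.card) :
    ∀ v, v ∉ S → 1 ≤ (S.filter (fun s => A s v)).card := by
  intro v hv
  by_contra hcon
  have h0 : S.filter (fun s => A s v) = ∅ := by
    rw [← card_eq_zero]; omega
  have := exch_in hS hmax ∅ (empty_subset _) {v} (single_acyclic hA v) (by
    intro y hy
    rw [mem_singleton] at hy
    subst hy
    refine ⟨hv, fun s hs hsy => ?_⟩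
    have : s ∈ S.filter (fun s => A s y) := mem_filter.2 ⟨hs, hsy⟩
    rw [h0] at this
    exact this)
  simp at this

open Classical in
theorem pos_out (hA : Oriented A) {S : Finset V} (hS : AcyclicOn A S)
    (hmax : ∀ T : Finset V, AcyclicOn A T → T.card ≤ S.card) :
    ∀ v, v ∉ S → 1 ≤ (S.filter (fun s => A v s)).card := by
  intro v hv
  by_contra hcon
  have h0 : S.filter (fun s => A v s) = ∅ := by
    rw [← card_eq_zero]; omega
  have := exch_out hS hmax ∅ (empty_subset _) {v} (single_acyclic hA v) (by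
    intro y hy
    rw [mem_singleton] at hy
    subst hy
    refine ⟨hv, fun s hs hsy => ?_⟩
    have : s ∈ S.filter (fun s => A y s) := mem_filter.2 ⟨hs, hsy⟩
    rw [h0] at this
    exact this)
  simp at this

open Classical in
/-- Splitting the degrees over `S`. -/
theorem degree_split (S : Finset V) :
    ∑ v ∈ univ \ S, (S.filter (fun s => A s v)).card +
      ∑ v ∈ univ \ S, (S.filter (fun s => A v s)).card +
      ∑ s ∈ S, (S.filter (fun u => A u s)).card +
      ∑ s ∈ S, (S.filter (fun u => A s u)).card ≤ ∑ s ∈ S, deg A s := by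
  have e1 : ∑ v ∈ univ \ S, (S.filter (fun s => A s v)).card =
      ∑ s ∈ S, ((univ \ S).filter (fun v => A s v)).card := by
    simp_rw [card_filter]
    exact sum_comm
  have e2 : ∑ v ∈ univ \ S, (S.filter (fun s => A v s)).card =
      ∑ s ∈ S, ((univ \ S).filter (fun v => A v s)).card := by
    simp_rw [card_filter]
    exact sum_comm
  rw [e1, e2, ← sum_add_distrib, ← sum_add_distrib, ← sum_add_distrib]
  refine sum_le_sum ?_
  intro s _
  unfold deg
  have hu : (univ : Finset V) = (univ \ S) ∪ S := by
    ext z; simp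
  have g1 : (univ.filter (fun u => A s u)).card =
      ((univ \ S).filter (fun u => A s u)).card + (S.filter (fun u => A s u)).card := by
    conv_lhs => rw [hu]
    rw [filter_union, card_union_of_disjoint]
    exact disjoint_filter_filter (disjoint_sdiff_self_left)
  have g2 : (univ.filter (fun u => A u s)).card =
      ((univ \ S).filter (fun u => A u s)).card + (S.filter (fun u => A u s)).card := by
    conv_lhs => rw [hu]
    rw [filter_union, card_union_of_disjoint]
    exact disjoint_filter_filter (disjoint_sdiff_self_left)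
  rw [g1, g2]
  omega

open Classical in
/-- Few vertices outside `S` have exactly one neighbour of the given kind in `S`. -/
theorem uniq_count {S : Finset V} (hA : Oriented A) (R : V → V → Prop)
    (hex : ∀ W ⊆ S, ∀ Y : Finset V, AcyclicOn A Y → (∀ y ∈ Y, y ∉ S ∧ ∀ s ∈ S, R s y → s ∈ W) →
      Y.card ≤ W.card)
    (hin : ∀ v, v ∉ S → ∀ s ∈ S, R s v → (∀ s' ∈ S, R s' v → s' = s) → ∃ u ∈ S, R u s) :
    ((univ \ S).filter (fun v => (S.filter (fun s => R s v)).card ≤ 1)).card ≤
      (S.filter (fun s => ∃ u ∈ S, R u s)).card +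
      ((univ \ S).filter (fun v => (S.filter (fun s => R s v)).card = 0)).card := by
  have hsub : (univ \ S).filter (fun v => (S.filter (fun s => R s v)).card ≤ 1) ⊆
      ((S.filter (fun s => ∃ u ∈ S, R u s)).biUnion
        (fun s => (univ \ S).filter (fun v => R s v ∧ ∀ s' ∈ S, R s' v → s' = s))) ∪
      (univ \ S).filter (fun v => (S.filter (fun s => R s v)).card = 0) := by
    intro v hv
    rw [mem_filter] at hv
    rw [mem_union]
    by_cases h0 : (S.filter (fun s => R s v)).card = 0
    · right; exact mem_filter.2 ⟨hv.1, h0⟩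
    · left
      have h1 : (S.filter (fun s => R s v)).card = 1 := by omega
      obtain ⟨s, hs⟩ := card_eq_one.1 h1
      have hsm : s ∈ S.filter (fun s => R s v) := by rw [hs]; simp
      rw [mem_filter] at hsm
      have hall : ∀ s' ∈ S, R s' v → s' = s := by
        intro s' hs' hr
        have : s' ∈ S.filter (fun s => R s v) := mem_filter.2 ⟨hs', hr⟩
        rw [hs] at this
        simpa using this
      rw [mem_biUnion]
      refine ⟨s, mem_filter.2 ⟨hsm.1, hin v (mem_sdiff.1 hv.1).2 s hsm.1 hsm.2 hall⟩,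
        mem_filter.2 ⟨hv.1, hsm.2, hall⟩⟩
  refine (card_le_card hsub).trans ((card_union_le _ _).trans ?_)
  refine Nat.add_le_add_right ?_ _
  have h2 : ∀ s ∈ S.filter (fun s => ∃ u ∈ S, R u s),
      ((univ \ S).filter (fun v => R s v ∧ ∀ s' ∈ S, R s' v → s' = s)).card ≤ 1 := by
    intro s hs
    rw [mem_filter] at hs
    rw [card_le_one]
    intro x hx y hy
    by_contra hne
    have h3 := hex {s} (by simpa using hs.1) {x, y} (pair_acyclic hA x y) (by
      intro z hz
      have hz' : z ∈ (univ \ S).filter (fun v => R s v ∧ ∀ s' ∈ S, R s' v → s' = s) := by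
        rw [mem_insert, mem_singleton] at hz
        rcases hz with h | h
        · rw [h]; exact hx
        · rw [h]; exact hy
      rw [mem_filter] at hz'
      refine ⟨(mem_sdiff.1 hz'.1).2, fun s' hs' hr => ?_⟩
      rw [mem_singleton]
      exact hz'.2.2 s' hs' hr)
    rw [card_pair hne, card_singleton] at h3
    omega
  refine (card_biUnion_le_card_mul _ _ _ h2).trans ?_
  rw [mul_one]

open Classical in
/-- `4 n ≤ ∑_{s ∈ S} (deg s + 4)` for a largest acyclic set `S`. -/
theorem main_four (hA : Oriented A) {S : Finset V} (hS : AcyclicOn A S)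
    (hmax : ∀ T : Finset V, AcyclicOn A T → T.card ≤ S.card) :
    4 * Fintype.card V ≤ ∑ s ∈ S, (deg A s + 4) := by
  have hp1 := pos_in hA hS hmax
  have hp2 := pos_out hA hS hmax
  have hz1 : ((univ \ S).filter (fun v => (S.filter (fun s => A s v)).card = 0)).card = 0 := by
    rw [card_eq_zero, filter_eq_empty_iff]
    intro v hv h0
    have := hp1 v (mem_sdiff.1 hv).2
    omega
  have hz2 : ((univ \ S).filter (fun v => (S.filter (fun s => A v s)).card = 0)).card = 0 := by
    rw [card_eq_zero, filter_eq_empty_iff]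
    intro v hv h0
    have := hp2 v (mem_sdiff.1 hv).2
    omega
  have hsubS : ∀ s ∈ S, AcyclicOn A (S.erase s) := by
    intro s _ v hv
    have hle : (fun a b => a ∈ S.erase s ∧ b ∈ S.erase s ∧ A a b) ≤
        (fun a b => a ∈ S ∧ b ∈ S ∧ A a b) := by
      rintro a b ⟨h1, h2, h3⟩
      exact ⟨mem_of_mem_erase h1, mem_of_mem_erase h2, h3⟩
    exact hS v (Relation.TransGen.mono hle _ _ hv)
  have hq1 : ∀ v, v ∉ S → ∀ s ∈ S, A s v → (∀ s' ∈ S, A s' v → s' = s) → ∃ u ∈ S, A u s := by
    intro v hv s hs _ hall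
    by_contra hcon
    push Not at hcon
    have hac : AcyclicOn A (S.erase s ∪ {s, v}) := by
      refine union_acyclic (hsubS s hs) (pair_acyclic hA s v) ?_
      intro x hx y hy hxy
      rw [mem_insert, mem_singleton] at hy
      rw [mem_erase] at hx
      rcases hy with h | h
      · rw [h] at hxy; exact hcon x hx.2 hxy
      · rw [h] at hxy; exact hx.1 (hall x hx.2 hxy)
    have hcard := hmax _ hac
    have heq : S.erase s ∪ {s, v} = insert v S := by
      ext z
      simp only [mem_union, mem_erase, mem_insert, mem_singleton]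
      constructor
      · rintro (⟨-, h⟩ | h | h)
        · right; exact h
        · right; rw [h]; exact hs
        · left; exact h
      · rintro (h | h)
        · right; right; exact h
        · by_cases hzs : z = s
          · right; left; exact hzs
          · left; exact ⟨hzs, h⟩
    rw [heq, card_insert_of_notMem hv] at hcard
    omega
  have hq2 : ∀ v, v ∉ S → ∀ s ∈ S, A v s → (∀ s' ∈ S, A v s' → s' = s) → ∃ u ∈ S, A s u := by
    intro v hv s hs _ hall
    by_contra hcon
    push Not at hcon
    have hac : AcyclicOn A ({s, v} ∪ S.erase s) := by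
      refine union_acyclic (pair_acyclic hA s v) (hsubS s hs) ?_
      intro y hy x hx hxy
      rw [mem_insert, mem_singleton] at hy
      rw [mem_erase] at hx
      rcases hy with h | h
      · rw [h] at hxy; exact hcon x hx.2 hxy
      · rw [h] at hxy; exact hx.1 (hall x hx.2 hxy)
    have hcard := hmax _ hac
    have heq : {s, v} ∪ S.erase s = insert v S := by
      ext z
      simp only [mem_union, mem_erase, mem_insert, mem_singleton]
      constructor
      · rintro ((h | h) | ⟨-, h⟩)
        · right; rw [h]; exact hs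
        · left; exact h
        · right; exact h
      · rintro (h | h)
        · left; right; exact h
        · by_cases hzs : z = s
          · left; left; exact hzs
          · right; exact ⟨hzs, h⟩
    rw [heq, card_insert_of_notMem hv] at hcard
    omega
  have hu1 := uniq_count hA (fun s v => A s v) (exch_in hS hmax) hq1
  have hu2 := uniq_count hA (fun s v => A v s) (exch_out hS hmax) hq2
  rw [hz1] at hu1
  rw [hz2] at hu2
  have hs1 := sum_lower (S := S) (fun s v => A s v) 1 hp1
  have hs2 := sum_lower (S := S) (fun s v => A v s) 1 hp2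
  have hd := degree_split (A := A) S
  have hc1 : (S.filter (fun s => ∃ u ∈ S, A u s)).card ≤
      ∑ s ∈ S, (S.filter (fun u => A u s)).card := by
    rw [card_filter]
    refine sum_le_sum ?_
    intro s _
    split_ifs with h
    · obtain ⟨u, hu, hus⟩ := h
      exact card_pos.2 ⟨u, mem_filter.2 ⟨hu, hus⟩⟩
    · exact Nat.zero_le _
  have hc2 : (S.filter (fun s => ∃ u ∈ S, A s u)).card ≤
      ∑ s ∈ S, (S.filter (fun u => A s u)).card := by
    rw [card_filter]
    refine sum_le_sum ?_
    intro s _
    split_ifs with h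
    · obtain ⟨u, hu, hus⟩ := h
      exact card_pos.2 ⟨u, mem_filter.2 ⟨hu, hus⟩⟩
    · exact Nat.zero_le _
  have hcard : (univ \ S).card + S.card = Fintype.card V := by
    rw [← card_univ]
    exact card_sdiff_add_card_eq_card (subset_univ S)
  rw [sum_add_distrib, sum_const, smul_eq_mul]
  omega

open Classical in
/-- The inequality with parameter `j`. -/
theorem main_ineq (hA : Oriented A) {S : Finset V}
    (hS : AcyclicOn A S) (hmax : ∀ T : Finset V, AcyclicOn A T → T.card ≤ S.card)
    (j : ℕ) (hj : j ≤ S.card) :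
    2 * (j + 1) * Fintype.card V ≤
      ∑ s ∈ S, (deg A s + 2 * (j + 1)) + 2 * j * (2 ^ j - 1) * S.card.choose j := by
  have hl1 := low_count hA (fun s v => A s v) (exch_in hS hmax) j hj
  have hl2 := low_count hA (fun s v => A v s) (exch_out hS hmax) j hj
  have hs1 := sum_lower (S := S) (fun s v => A s v) j (pos_in hA hS hmax)
  have hs2 := sum_lower (S := S) (fun s v => A v s) j (pos_out hA hS hmax)
  have hd := degree_split (A := A) S
  have hcard : (univ \ S).card + S.card = Fintype.card V := by
    rw [← card_univ]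
    exact card_sdiff_add_card_eq_card (subset_univ S)
  have m1 := Nat.mul_le_mul_left j hl1
  have m2 := Nat.mul_le_mul_left j hl2
  have hfin : (j + 1) * (univ \ S).card + (j + 1) * (univ \ S).card ≤
      ∑ s ∈ S, deg A s + 2 * (j * (S.card.choose j * (2 ^ j - 1))) := by omega
  rw [← hcard]
  have e3 : 2 * j * (2 ^ j - 1) * S.card.choose j = 2 * (j * (S.card.choose j * (2 ^ j - 1))) := by
    ring
  rw [e3, sum_add_distrib, sum_const, smul_eq_mul]
  nlinarith [hfin]

open Classical in
theorem exists_max (A : V → V → Prop) : ∃ S : Finset V, AcyclicOn A S ∧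
    ∀ T : Finset V, AcyclicOn A T → T.card ≤ S.card := by
  obtain ⟨S, hS, hm⟩ := Finset.exists_max_image (univ.filter (fun X : Finset V => AcyclicOn A X))
    card ⟨∅, by simp [empty_acyclic]⟩
  refine ⟨S, (mem_filter.1 hS).2, fun T hT => hm T (by simp [hT])⟩

end

/-- For every `k`, `f k ≤ k / (k + 4)`.  More generally, if `S` is a largest acyclic set of an
oriented graph on `n` vertices, then `4 n ≤ ∑_{s ∈ S} (deg s + 4)`, and for every `j ≤ |S|`,
`2 (j + 1) n ≤ ∑_{s ∈ S} (deg s + 2 (j + 1)) + 2 j (2 ^ j - 1) C(|S|, j)`. -/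
theorem result :
    (∀ k : ℕ, f k ≤ (k : ℝ) / ((k : ℝ) + 4)) ∧
    (∀ (V : Type) [Fintype V] (A : V → V → Prop), Oriented A →
      ∀ S : Finset V, AcyclicOn A S → (∀ T : Finset V, AcyclicOn A T → T.card ≤ S.card) →
        4 * Fintype.card V ≤ ∑ s ∈ S, (deg A s + 4) ∧
        ∀ j : ℕ, j ≤ S.card → 2 * (j + 1) * Fintype.card V ≤
          ∑ s ∈ S, (deg A s + 2 * (j + 1)) + 2 * j * (2 ^ j - 1) * S.card.choose j) := by
  refine ⟨?_, fun V _ A hA S hS hmax =>
    ⟨main_four hA hS hmax, fun j hj => main_ineq hA hS hmax j hj⟩⟩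
  intro k
  unfold f
  have hk4 : (0 : ℝ) < (k : ℝ) + 4 := by positivity
  refine Real.sSup_le ?_ (by positivity)
  rintro x ⟨n, A, hn, hA, hk, rfl⟩
  obtain ⟨S, hS, hmax⟩ := exists_max A
  have h4 : 4 * n ≤ (k + 4) * S.card := by
    have h := main_four hA hS hmax
    rw [Fintype.card_fin] at h
    refine h.trans ?_
    rw [mul_comm, ← smul_eq_mul, ← sum_const]
    exact sum_le_sum (fun s _ => Nat.add_le_add_right (hk s) 4)
  have hf : fvs A ≤ n - S.card := by
    unfold fvs
    refine Nat.sInf_le ⟨Sᶜ, ?_, ?_⟩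
    · rw [card_compl, Fintype.card_fin]
    · convert hS using 1
      ext x
      simp
  have hSn : S.card ≤ n := by
    have := card_le_univ S
    rwa [Fintype.card_fin] at this
  have hn' : (0 : ℝ) < n := by exact_mod_cast hn
  have hf' : (fvs A : ℝ) ≤ n - S.card := by
    have : fvs A + S.card ≤ n := by omega
    have : ((fvs A + S.card : ℕ) : ℝ) ≤ n := by exact_mod_cast this
    push_cast at this
    linarith
  have h4' : (4 : ℝ) * n ≤ ((k : ℝ) + 4) * S.card := by exact_mod_cast h4
  rw [div_le_div_iff₀ hn' hk4]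
  have h6 : (fvs A : ℝ) * ((k : ℝ) + 4) ≤ (n - S.card) * ((k : ℝ) + 4) :=
    mul_le_mul_of_nonneg_right hf' hk4.le
  nlinarith

end Pool.Agent.Results.MP_94e41a_co.AcyclicSets
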